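import Pool.Agent.Helper22.MEI.Flux2
import Pool.Agent.Helper14.CW.Geo1
import Pool.Agent.Helper8.MEI.C

/-!
# Project MEI, proof of M1A (class T, exact): sheet of the remaining rows

Paper proof: team-store `h75_M1.md`.  Objects of helper22 (`gp`, `hd`, `Phi`, `Vt`), helper14 (`pz`,
`qx`, `qy`, `qz`).
-/

namespace Helper75.MEI

open Set MeasureTheory Helper22.MEI Helper14.CW.Geo

/-- surface area of the top -/
noncomputable def St (f : ℝ × ℝ → ℝ) : ℝ := ∫ p in SQ, NN p * hd f p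

/-- the function of the opposite side (no swap) -/
noncomputable def gN (f : ℝ × ℝ → ℝ) (p : ℝ × ℝ) : ℝ := NN p - f p

/-- `A0 = 3/4 - |p - m''|²` -/
noncomputable def A0 (f : ℝ × ℝ → ℝ) (p : ℝ × ℝ) : ℝ :=
  3 / 4 - (dX f p ^ 2 + dY f p ^ 2 + (pz f p + t) ^ 2)

/-- `B0 = 3/4 - |q - m'|²` -/
noncomputable def B0 (f : ℝ × ℝ → ℝ) (p : ℝ × ℝ) : ℝ :=
  3 / 4 - (qx f p ^ 2 + qy f p ^ 2 + (qz f p - t) ^ 2)

/-- `α(f) = ∫ w_q dS_p`, `w_q = -q_z - t` -/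
noncomputable def al (f : ℝ × ℝ → ℝ) : ℝ := ∫ p in SQ, (-qz f p - t) * (NN p * hd f p)

/-- `∫ B0 dS_p` -/
noncomputable def IB (f : ℝ × ℝ → ℝ) : ℝ := ∫ p in SQ, B0 f p * (NN p * hd f p)

/-- the field `F` in the coordinates of the space (`q.2.2 = t + w`) -/
noncomputable def X1 (q : ℝ × ℝ × ℝ) : ℝ := Pool.Agent.Helper8.MEI.F1 q.1 q.2.1 (q.2.2 - t)
noncomputable def X2 (q : ℝ × ℝ × ℝ) : ℝ := Pool.Agent.Helper8.MEI.F2 q.1 q.2.1 (q.2.2 - t)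
noncomputable def X3 (q : ℝ × ℝ × ℝ) : ℝ := Pool.Agent.Helper8.MEI.F3 q.1 q.2.1 (q.2.2 - t)

/-- `T(f) = Φ_F(f) - S(f)/4` -/
noncomputable def Tf (f : ℝ × ℝ → ℝ) : ℝ := Phi X1 X2 X3 f - St f / 4

/-- Row D (helper55) -/
def ST_D : Prop := ∀ f : ℝ × ℝ → ℝ, Adm f →
  Dfun (fun p => f0 p - f p) = 2 * (Vt f + Vt (sw f) - (Vt f0 + Vt f1)) ∧
  St f + St (sw f) - (St f0 + St f1) = 2 * (Vt f + Vt (sw f) - (Vt f0 + Vt f1))

/-- Row E (helper95): Fubini coercivity; `∫ A0 dS_q` of `f` is `IB (sw f)` -/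
def ST_E : Prop := ∀ f : ℝ × ℝ → ℝ, Adm f →
  2 * (al f * al (sw f)) ≤ 1.16 * (St f * IB (sw f) + St (sw f) * IB f)

/-- Row F (helper52, helper41): the ends -/
def ST_F : Prop := Tf f0 = 0 ∧ Tf f1 = 0 ∧ al f0 = 0 ∧ St f0 ≤ 0.13 ∧ 0.00053 ≤ Vt f0 - Vt f1

end Helper75.MEI
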