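import Pool.Agent.Helper75.MEI.Asm
import Pool.Agent.Helper55.MEI.StD
import Pool.Agent.Helper95.MEI.E3

/-!
# Project MEI: the volume `v_L` from the areas, and M1A from row F in the form of areas
-/

namespace Helper75.MEI

open Set MeasureTheory Helper22.MEI

/-- `v_L ≥ 0.00053` from the areas of the two tops -/
theorem vL_of (hT0 : Tf f0 = 0) (hT1 : Tf f1 = 0) (h0 : 0.127 ≤ St f0) (h1 : St f1 ≤ 0.117) :
    0.00053 ≤ Vt f0 - Vt f1 := by
  have A0' := Helper55.MEI.adm_f0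
  have A1' := Helper55.MEI.adm_f1
  have l1 : ∀ p ∈ SQ, f1 p ≤ f0 p := fun p hp => A1'.le_f0 (mem_SQ hp).1
  have b := flux_le A1' A0' l1
  unfold Tf at hT0 hT1
  norm_num at *
  linarith

/-- M1A with all rows but F -/
theorem M1A_of' (hT0 : Tf f0 = 0) (hT1 : Tf f1 = 0) (ha : al f0 = 0) (h0 : 0.127 ≤ St f0)
    (h0' : St f0 ≤ 0.13) (h1 : St f1 ≤ 0.117) : M1A :=
  M1A_of Helper55.MEI.st_D Pool.Agent.Helper95.MEI.row_E
    ⟨hT0, hT1, ha, h0', vL_of hT0 hT1 h0 h1⟩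

end Helper75.MEI
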