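import Pool.Agent.Helper75.MEI.Fld

/-!
# Project MEI: assembly of M1A from the rows D, E, F
-/

namespace Helper75.MEI

open Set MeasureTheory Helper22.MEI Helper14.CW.Geo Pool.Agent.Helper8.MEI

variable {f h : ℝ × ℝ → ℝ}

theorem unit_u (p : ℝ × ℝ) : (p.1 / NN p) ^ 2 + (p.2 / NN p) ^ 2 + (1 / NN p) ^ 2 = 1 := by
  have hn := NN_ne p
  have h2 := NN_sq p
  field_simp
  linarith

/-- `N (⟨F,u⟩ - 1/4)` in the chart -/
noncomputable def ex (f : ℝ × ℝ → ℝ) (p : ℝ × ℝ) : ℝ :=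
  X1 (gp f p) * p.1 + X2 (gp f p) * p.2 + X3 (gp f p) - NN p / 4

theorem abs_qx_B0 (hf : Adm f) {p : ℝ × ℝ} (h1 : |p.1| ≤ s) (h2 : |p.2| ≤ s) :
    |qx f p| ≤ B0 f p := by
  have := abs_qx_le_Bq hf h1 h2
  unfold Bq at this
  unfold B0
  linarith

theorem ex_ge (hf : Adm f) {p : ℝ × ℝ} (h1 : |p.1| ≤ s) (h2 : |p.2| ≤ s) :
    1 / 2 * (NN p * B0 f p) ≤ ex f p := by
  have hn := NN_pos p
  have k := F1_ge (dX f p) (dY f p) (pz f p - t) (p.1 / NN p) (p.2 / NN p) (1 / NN p) (B0 f p)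
    (unit_u p) (zone hf h1 h2)
    (by unfold B0 qx qy qz; ring) (abs_dX hf h1 h2) (abs_qx_B0 hf h1 h2)
  have k2 := mul_le_mul_of_nonneg_left k hn.le
  unfold ex
  rw [gp_pz]
  unfold X1 X2 X3
  simp only
  have e : NN p * (F1 (dX f p) (dY f p) (pz f p - t) * (p.1 / NN p)
      + F2 (dX f p) (dY f p) (pz f p - t) * (p.2 / NN p)
      + F3 (dX f p) (dY f p) (pz f p - t) * (1 / NN p) - 1 / 4)
      = F1 (dX f p) (dY f p) (pz f p - t) * p.1 + F2 (dX f p) (dY f p) (pz f p - t) * p.2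
        + F3 (dX f p) (dY f p) (pz f p - t) - NN p / 4 := by
    field_simp
  rw [e] at k2
  linarith

theorem B0_nonneg (hf : Adm f) {p : ℝ × ℝ} (h1 : |p.1| ≤ s) (h2 : |p.2| ≤ s) : 0 ≤ B0 f p :=
  (abs_nonneg _).trans (abs_qx_B0 hf h1 h2)

theorem ex_nonneg (hf : Adm f) {p : ℝ × ℝ} (h1 : |p.1| ≤ s) (h2 : |p.2| ≤ s) : 0 ≤ ex f p := by
  have a := ex_ge hf h1 h2
  have b := mul_nonneg (NN_pos p).le (B0_nonneg hf h1 h2)
  linarith

/-! ### integrability -/

theorem NN_good : Good NN := Good.cont NN_cont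

theorem pz_cont (hf : Adm f) : Continuous (pz f) := by
  have h1 := hf.cX
  have h2 := hf.cY
  have h3 := hf.diff.continuous
  unfold pz; fun_prop

theorem qx_cont (hf : Adm f) : Continuous (qx f) :=
  hf.cX.sub (continuous_fst.div NN_cont NN_ne)

theorem qy_cont (hf : Adm f) : Continuous (qy f) :=
  hf.cY.sub (continuous_snd.div NN_cont NN_ne)

theorem qz_cont (hf : Adm f) : Continuous (qz f) :=
  (pz_cont hf).sub (continuous_const.div NN_cont NN_ne)

theorem B0_cont (hf : Adm f) : Continuous (B0 f) := by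
  have h1 := qx_cont hf
  have h2 := qy_cont hf
  have h3 := qz_cont hf
  unfold B0; fun_prop

theorem ex_cont (hf : Adm f) : Continuous (ex f) := by
  have h0 := gp_cont hf
  have h1 := X1_smooth.continuous.comp h0
  have h2 := X2_smooth.continuous.comp h0
  have h3 := X3_smooth.continuous.comp h0
  exact (((h1.mul continuous_fst).add (h2.mul continuous_snd)).add h3).sub (NN_cont.div_const 4)

theorem Tf_eq (hf : Adm f) : Tf f = ∫ p in SQ, ex f p * hd f p := by
  unfold Tf Phi St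
  rw [← integral_div, ← integral_sub]
  · refine integral_congr_ae (Filter.Eventually.of_forall fun p => ?_)
    unfold ex
    ring
  · exact (Phi_good X1_smooth X2_smooth X3_smooth hf).int
  · exact ((NN_good.mul hf.ghd).int).div_const 4

theorem Tf_ge (hf : Adm f) : 1 / 2 * IB f ≤ Tf f := by
  rw [Tf_eq hf]
  unfold IB
  rw [← integral_const_mul]
  refine setIntegral_mono_on_ae ?_ ?_ SQ_meas ?_
  · exact (((Good.cont (B0_cont hf)).mul (NN_good.mul hf.ghd)).int).const_mul _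
  · exact ((Good.cont (ex_cont hf)).mul hf.ghd).int
  · filter_upwards [hf.hess_ae] with p Hp hp
    obtain ⟨h1, h2⟩ := mem_SQ hp
    have a := ex_ge hf h1 h2
    have b := hd_nonneg Hp
    have c := mul_le_mul_of_nonneg_right a b
    linarith

theorem IB_nonneg (hf : Adm f) : 0 ≤ IB f := by
  unfold IB
  refine setIntegral_nonneg_ae SQ_meas ?_
  filter_upwards [hf.hess_ae] with p Hp hp
  obtain ⟨h1, h2⟩ := mem_SQ hp
  exact mul_nonneg (B0_nonneg hf h1 h2) (mul_nonneg (NN_pos p).le (hd_nonneg Hp))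

theorem Tf_nonneg (hf : Adm f) : 0 ≤ Tf f := by
  have := Tf_ge hf
  have := IB_nonneg hf
  linarith

/-! ### the bound for `α` -/

/-- chart form of `w_q - ⟨e3 - F~, u⟩` -/
theorem alZ (hf : Adm f) (p : ℝ × ℝ) :
    (-qz f p - t) * NN p - (Z1 (gp f p) * p.1 + Z2 (gp f p) * p.2 + Z3 (gp f p))
      = 4 * (pz f p + t) * ex f p := by
  have hn := NN_ne p
  unfold Z1 Z2 Z3 Y1 Y2 Y3 ex
  rw [gp_pz]
  simp only
  have e : qz f p * NN p = pz f p * NN p - 1 := by
    unfold qz; field_simp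
  linear_combination (-1) * e

theorem al_sub (hf : Adm f) :
    al f - Phi Z1 Z2 Z3 f = ∫ p in SQ, 4 * (pz f p + t) * ex f p * hd f p := by
  unfold al Phi
  rw [← integral_sub]
  · refine integral_congr_ae (Filter.Eventually.of_forall fun p => ?_)
    have := alZ hf p
    simp only
    linear_combination (hd f p) * this
  · exact ((Good.cont (((qz_cont hf).neg).sub continuous_const)).mul (NN_good.mul hf.ghd)).int
  · exact (Phi_good Z1_smooth Z2_smooth Z3_smooth hf).int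

theorem al_ge (hf : Adm f) : Phi Z1 Z2 Z3 f ≤ al f := by
  have h0 : 0 ≤ ∫ p in SQ, 4 * (pz f p + t) * ex f p * hd f p := by
    refine setIntegral_nonneg_ae SQ_meas ?_
    filter_upwards [hf.hess_ae] with p Hp hp
    obtain ⟨h1, h2⟩ := mem_SQ hp
    have a := ex_nonneg hf h1 h2
    have b := hd_nonneg Hp
    have c := pz_pos hf h1 h2
    have d := t_pos
    positivity
  have := al_sub hf
  linarith

/-- at `f0` there is equality -/
theorem al_f0 (hT : Tf f0 = 0) : al f0 = Phi Z1 Z2 Z3 f0 := by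
  have hf := Helper55.MEI.adm_f0
  have h1 := Tf_eq hf
  rw [hT] at h1
  have hI : IntegrableOn (fun p => ex f0 p * hd f0 p) SQ :=
    ((Good.cont (ex_cont hf)).mul hf.ghd).int
  have hnn : 0 ≤ᵐ[volume.restrict SQ] fun p => ex f0 p * hd f0 p := by
    rw [Filter.EventuallyLE, ae_restrict_iff' SQ_meas]
    filter_upwards [hf.hess_ae] with p Hp hp
    obtain ⟨h1, h2⟩ := mem_SQ hp
    exact mul_nonneg (ex_nonneg hf h1 h2) (hd_nonneg Hp)
  have hz := (integral_eq_zero_iff_of_nonneg_ae hnn hI).1 h1.symm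
  have h2 := al_sub hf
  have h3 : ∫ p in SQ, 4 * (pz f0 p + t) * ex f0 p * hd f0 p = 0 := by
    rw [← integral_zero (ℝ × ℝ) ℝ (μ := volume.restrict SQ)]
    refine integral_congr_ae ?_
    filter_upwards [hz] with p hp
    simp only [Pi.zero_apply] at hp ⊢
    rw [mul_assoc, hp, mul_zero]
  rw [h3] at h2
  linarith

theorem al_low (hT : Tf f0 = 0) (ha : al f0 = 0) (hf : Adm f) :
    12.2 * (Vt f0 - Vt f) ≤ al f := by
  have h0 := al_f0 hT
  have h1 := fluxZ hf Helper55.MEI.adm_f0 (fun p hp => hf.le_f0 (mem_SQ hp).1)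
  have h2 := al_ge hf
  linarith

/-! ### assembly -/

theorem f1_eq : f1 = sw f0 := by
  funext p; rfl

theorem main (hD : ST_D) (hE : ST_E) (hF : ST_F) (hf : Adm f) :
    Vt f0 + Vt f1 ≤ Vt f + Vt (sw f)
      ∧ (Vt f + Vt (sw f) = Vt f0 + Vt f1 → Vt f = Vt f0 ∨ Vt (sw f) = Vt f0) := by
  obtain ⟨hT0, hT1, ha0, hS0, hv⟩ := hF
  have A0' := Helper55.MEI.adm_f0
  have A1' := Helper55.MEI.adm_f1
  have hs := hf.swap
  have l0 : ∀ p ∈ SQ, f p ≤ f0 p := fun p hp => hf.le_f0 (mem_SQ hp).1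
  have l0s : ∀ p ∈ SQ, sw f p ≤ f0 p := fun p hp => hs.le_f0 (mem_SQ hp).1
  have l1 : ∀ p ∈ SQ, f1 p ≤ f p := fun p hp => hf.f1_le (mem_SQ hp).2
  have l1s : ∀ p ∈ SQ, f1 p ≤ sw f p := fun p hp => hs.f1_le (mem_SQ hp).2
  have e1 : ∀ k, Tf k = Phi X1 X2 X3 k - St k / 4 := fun k => rfl
  have a := flux_ge hf A0' l0
  have a' := flux_ge hs A0' l0s
  have b := flux_le A1' hs l1s
  have b' := flux_le A1' hf l1
  have v := Vt_mono hf A0' l0
  have v' := Vt_mono hs A0' l0s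
  have T1 := Tf_ge hf
  have T2 := Tf_ge hs
  have t1 := Tf_nonneg hf
  have t2 := Tf_nonneg hs
  rw [e1] at hT0 hT1 T1 T2 t1 t2
  exact Pool.Agent.Helper47.MEI.arith_full (Ph := Phi X1 X2 X3 f) (Phs := Phi X1 X2 X3 (sw f))
    (Ph0 := Phi X1 X2 X3 f0) (Ph1 := Phi X1 X2 X3 f1) (Sf := St f) (Ss := St (sw f))
    (S0 := St f0) (S1 := St f1) (al := al f) (be := al (sw f)) (IA := IB (sw f)) (IB := IB f)
    v v' hv (hD f hf).2 (by linarith) (by linarith) hS0 (by linarith) (by linarith)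
    (by linarith) (by linarith) (by linarith) (by linarith) t1 t2
    (al_low (by rw [e1]; exact hT0) ha0 hf) (al_low (by rw [e1]; exact hT0) ha0 hs)
    (IB_nonneg hs) (IB_nonneg hf) (by linarith) (hE f hf)

/-- **M1A** -/
theorem M1A_of (hD : ST_D) (hE : ST_E) (hF : ST_F) : M1A := by
  intro f hf
  have h1 := (main hD hE hF hf).1
  rw [(hD f hf).1]
  linarith

end Helper75.MEI
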