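import Pool.Agent.Helper75.MEI.Sheet
import Pool.Agent.Helper55.MEI.AdmF0
import Pool.Agent.Helper47.MEI.Arith

/-!
# Project MEI: the vector field as a field on the space, uses of the monotonicity of the flux
-/

namespace Helper75.MEI

open Set MeasureTheory Helper22.MEI Helper14.CW.Geo Pool.Agent.Helper8.MEI

variable {f h : ℝ × ℝ → ℝ}

/-! ### partial derivatives -/

theorem E1_of {F : ℝ × ℝ × ℝ → ℝ} (hF : ContDiff ℝ 1 F) {q : ℝ × ℝ × ℝ} {d : ℝ}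
    (h : HasDerivAt (fun a => F (a, q.2)) d q.1) : E1 F q = d := by
  have h0 : HasFDerivAt F (fderiv ℝ F q) (q.1, q.2) := ((hF.differentiable one_ne_zero) q).hasFDerivAt
  have hc : HasDerivAt (fun a : ℝ => (a, q.2)) ((1 : ℝ), (0 : ℝ × ℝ)) q.1 :=
    (hasDerivAt_id q.1).prodMk (hasDerivAt_const q.1 q.2)
  exact (h0.comp_hasDerivAt q.1 hc).unique h

theorem E2_of {F : ℝ × ℝ × ℝ → ℝ} (hF : ContDiff ℝ 1 F) {q : ℝ × ℝ × ℝ} {d : ℝ}
    (h : HasDerivAt (fun a => F (q.1, a, q.2.2)) d q.2.1) : E2 F q = d := by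
  have h0 : HasFDerivAt F (fderiv ℝ F q) (q.1, q.2.1, q.2.2) :=
    ((hF.differentiable one_ne_zero) q).hasFDerivAt
  have hc : HasDerivAt (fun a : ℝ => (q.1, a, q.2.2)) ((0 : ℝ), (1 : ℝ), (0 : ℝ)) q.2.1 :=
    (hasDerivAt_const q.2.1 q.1).prodMk ((hasDerivAt_id q.2.1).prodMk (hasDerivAt_const q.2.1 q.2.2))
  exact (h0.comp_hasDerivAt q.2.1 hc).unique h

theorem E3_of {F : ℝ × ℝ × ℝ → ℝ} (hF : ContDiff ℝ 1 F) {q : ℝ × ℝ × ℝ} {d : ℝ}
    (h : HasDerivAt (fun a => F (q.1, q.2.1, a)) d q.2.2) : E3 F q = d := by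
  have h0 : HasFDerivAt F (fderiv ℝ F q) (q.1, q.2.1, q.2.2) :=
    ((hF.differentiable one_ne_zero) q).hasFDerivAt
  have hc : HasDerivAt (fun a : ℝ => (q.1, q.2.1, a)) ((0 : ℝ), (0 : ℝ), (1 : ℝ)) q.2.2 :=
    (hasDerivAt_const q.2.2 q.1).prodMk ((hasDerivAt_const q.2.2 q.2.1).prodMk (hasDerivAt_id q.2.2))
  exact (h0.comp_hasDerivAt q.2.2 hc).unique h

/-! ### smoothness -/

theorem DD_smooth : ContDiff ℝ 1 (fun q : ℝ × ℝ × ℝ => DD q.1 q.2.1 (q.2.2 - t)) := by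
  unfold DD; fun_prop

theorem X1_smooth : ContDiff ℝ 1 X1 := by
  unfold X1 F1
  exact ContDiff.div (by fun_prop) DD_smooth (fun q => (DD_pos _ _ _).ne')

theorem X2_smooth : ContDiff ℝ 1 X2 := by
  unfold X2 F2
  exact ContDiff.div (by fun_prop) DD_smooth (fun q => (DD_pos _ _ _).ne')

theorem X3_smooth : ContDiff ℝ 1 X3 := by
  unfold X3 F3
  exact ContDiff.div (by fun_prop) DD_smooth (fun q => (DD_pos _ _ _).ne')

/-- the field `F~` -/
noncomputable def Y1 (q : ℝ × ℝ × ℝ) : ℝ := 4 * (q.2.2 + t) * X1 q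
noncomputable def Y2 (q : ℝ × ℝ × ℝ) : ℝ := 4 * (q.2.2 + t) * X2 q
noncomputable def Y3 (q : ℝ × ℝ × ℝ) : ℝ := 4 * (q.2.2 + t) * X3 q

/-- the field `e3 - F~` -/
noncomputable def Z1 (q : ℝ × ℝ × ℝ) : ℝ := -Y1 q
noncomputable def Z2 (q : ℝ × ℝ × ℝ) : ℝ := -Y2 q
noncomputable def Z3 (q : ℝ × ℝ × ℝ) : ℝ := 1 - Y3 q

theorem lin_smooth : ContDiff ℝ 1 (fun q : ℝ × ℝ × ℝ => 4 * (q.2.2 + t)) := by fun_prop

theorem Z1_smooth : ContDiff ℝ 1 Z1 := (lin_smooth.mul X1_smooth).neg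
theorem Z2_smooth : ContDiff ℝ 1 Z2 := (lin_smooth.mul X2_smooth).neg
theorem Z3_smooth : ContDiff ℝ 1 Z3 := contDiff_const.sub (lin_smooth.mul X3_smooth)

theorem shift_w {x y w : ℝ} {G : ℝ → ℝ} {d : ℝ} (h : HasDerivAt G d (w - t)) :
    HasDerivAt (fun a => G (a - t)) d w := by
  have h1 : HasDerivAt (fun a : ℝ => a - t) 1 w := (hasDerivAt_id w).sub_const t
  have h2 := HasDerivAt.comp (h₂ := G) w h h1
  rw [mul_one] at h2
  exact h2

theorem dX_eq (q : ℝ × ℝ × ℝ) : dv X1 X2 X3 q = divF q.1 q.2.1 (q.2.2 - t) := by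
  unfold dv
  rw [E1_of X1_smooth (hasDeriv_x q.1 q.2.1 (q.2.2 - t)),
    E2_of X2_smooth (hasDeriv_y q.1 q.2.1 (q.2.2 - t)),
    E3_of X3_smooth (shift_w (x := 0) (y := 0) (hasDeriv_w q.1 q.2.1 (q.2.2 - t)))]
  exact divF_eq _ _ _

theorem two_t : 2 * t = 1 / √2 := by
  have h2 : √2 * √2 = 2 := Real.mul_self_sqrt (by norm_num)
  rw [eq_div_iff (by positivity)]
  unfold t
  linear_combination (1 / 2) * h2

theorem dZ_eq (q : ℝ × ℝ × ℝ) : dv Z1 Z2 Z3 q =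
    -(4 * ((q.2.2 - t) + 1 / √2) * divF q.1 q.2.1 (q.2.2 - t)
      + 2 * (q.2.2 - t) / DD q.1 q.2.1 (q.2.2 - t)) := by
  have e1 : E1 Z1 q = -(4 * (q.2.2 + t) * E1 X1 q) := by
    refine E1_of Z1_smooth ?_
    have := (hasDeriv_x q.1 q.2.1 (q.2.2 - t))
    rw [E1_of X1_smooth this]
    exact (this.const_mul (4 * (q.2.2 + t))).neg
  have e2 : E2 Z2 q = -(4 * (q.2.2 + t) * E2 X2 q) := by
    refine E2_of Z2_smooth ?_
    have := (hasDeriv_y q.1 q.2.1 (q.2.2 - t))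
    rw [E2_of X2_smooth this]
    exact (this.const_mul (4 * (q.2.2 + t))).neg
  have e3 : E3 Z3 q = -(4 * (q.2.2 + t) * E3 X3 q + 4 * X3 q) := by
    refine E3_of Z3_smooth ?_
    have h1 := shift_w (x := 0) (y := 0) (hasDeriv_w q.1 q.2.1 (q.2.2 - t))
    rw [E3_of X3_smooth h1]
    have h2 : HasDerivAt (fun a : ℝ => 4 * (a + t)) 4 q.2.2 := by
      simpa using ((hasDerivAt_id q.2.2).add_const t).const_mul 4
    have h3 := (h2.mul h1).const_sub 1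
    refine HasDerivAt.congr_deriv (f := fun a => Z3 (q.1, q.2.1, a)) h3 ?_
    unfold X3
    ring
  have hX := dX_eq q
  unfold dv at hX ⊢
  rw [e1, e2, e3]
  have e4 : 4 * X3 q = 2 * (q.2.2 - t) / DD q.1 q.2.1 (q.2.2 - t) := by
    unfold X3 F3; ring
  have e5 : q.2.2 + t = (q.2.2 - t) + 1 / √2 := by rw [← two_t]; ring
  rw [e4, ← e5, ← hX]
  ring

/-! ### the region -/

theorem zone (h : Adm f) {p : ℝ × ℝ} (h1 : |p.1| ≤ s) (h2 : |p.2| ≤ s) :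
    ZZ (dX f p) (dY f p) (pz f p - t) := by
  have a := outer_r h h1 h2
  have b := spindle h h1 h2
  have hr := rp_sq f p
  have e2 : 2 * s = √2 := by unfold s; ring
  have e3 : 2 * c3 = √3 := by unfold c3; ring
  unfold ZZ
  rw [← hr]
  have er : √(rp f p ^ 2) = rp f p := Real.sqrt_sq (rp_nonneg f p)
  rw [er, ← e2, ← e3]
  exact ⟨a, b⟩

theorem mem_SQ {p : ℝ × ℝ} (hp : p ∈ SQ) : |p.1| ≤ s ∧ |p.2| ≤ s :=
  ⟨abs_le.2 ⟨hp.1.1.le, hp.1.2.le⟩, abs_le.2 ⟨hp.2.1.le, hp.2.2.le⟩⟩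

theorem gp_pz (f : ℝ × ℝ → ℝ) (p : ℝ × ℝ) : gp f p = (dX f p, dY f p, pz f p) := rfl

/-! ### the field `c · id` -/

theorem id_smooth1 (c : ℝ) : ContDiff ℝ 1 (fun q : ℝ × ℝ × ℝ => c * q.1) := by fun_prop
theorem id_smooth2 (c : ℝ) : ContDiff ℝ 1 (fun q : ℝ × ℝ × ℝ => c * q.2.1) := by fun_prop
theorem id_smooth3 (c : ℝ) : ContDiff ℝ 1 (fun q : ℝ × ℝ × ℝ => c * q.2.2) := by fun_prop

theorem dv_id (c : ℝ) (q : ℝ × ℝ × ℝ) :
    dv (fun q : ℝ × ℝ × ℝ => c * q.1) (fun q => c * q.2.1) (fun q => c * q.2.2) q = 3 * c := by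
  unfold dv
  rw [E1_of (d := c) (id_smooth1 c) (by simpa using (hasDerivAt_id q.1).const_mul c),
    E2_of (d := c) (id_smooth2 c) (by simpa using (hasDerivAt_id q.2.1).const_mul c),
    E3_of (d := c) (id_smooth3 c) (by simpa using (hasDerivAt_id q.2.2).const_mul c)]
  ring

theorem Phi_id (c : ℝ) (f : ℝ × ℝ → ℝ) :
    Phi (fun q : ℝ × ℝ × ℝ => c * q.1) (fun q => c * q.2.1) (fun q => c * q.2.2) f
      = 3 * c * Vt f := by
  unfold Phi Vt
  rw [← mul_assoc, ← integral_const_mul]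
  refine integral_congr_ae (Filter.Eventually.of_forall fun p => ?_)
  have h1 := supp_p f p
  simp only [gp_pz]
  rw [← h1]
  ring

theorem dv_const (a b c : ℝ) (q : ℝ × ℝ × ℝ) :
    dv (fun _ : ℝ × ℝ × ℝ => a) (fun _ => b) (fun _ => c) q = 0 := by
  unfold dv
  rw [E1_of (d := 0) contDiff_const (hasDerivAt_const _ _),
    E2_of (d := 0) contDiff_const (hasDerivAt_const _ _),
    E3_of (d := 0) contDiff_const (hasDerivAt_const _ _)]
  ring

/-! ### uses of `flux_mono` -/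

theorem Vt_mono (hf : Adm f) (hh : Adm h) (hle : ∀ p ∈ SQ, f p ≤ h p) : Vt f ≤ Vt h := by
  have := flux_mono (contDiff_const (c := (0 : ℝ))) (contDiff_const (c := (0 : ℝ)))
    (contDiff_const (c := (0 : ℝ))) (id_smooth1 (1 / 3)) (id_smooth2 (1 / 3)) (id_smooth3 (1 / 3))
    hf hh hle (fun p _ r _ => by rw [dv_id, dv_const]; norm_num)
  rw [Phi_id, Phi_id] at this
  unfold Phi at this
  simp only [zero_mul, add_zero, integral_zero, sub_zero] at this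
  linarith

theorem flux_ge (hf : Adm f) (hh : Adm h) (hle : ∀ p ∈ SQ, f p ≤ h p) :
    4.32 * (Vt h - Vt f) ≤ Phi X1 X2 X3 h - Phi X1 X2 X3 f := by
  have := flux_mono (id_smooth1 (1.44)) (id_smooth2 (1.44)) (id_smooth3 (1.44))
    X1_smooth X2_smooth X3_smooth hf hh hle (fun p hp r hr => by
      rw [dv_id, dX_eq]
      obtain ⟨h1, h2⟩ := mem_SQ hp
      have := divF_lo (zone (hf.comb hh hr.1 hr.2) h1 h2)
      rw [gp_pz]
      norm_num at this ⊢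
      exact this)
  rw [Phi_id, Phi_id] at this
  linarith

theorem flux_le (hf : Adm f) (hh : Adm h) (hle : ∀ p ∈ SQ, f p ≤ h p) :
    Phi X1 X2 X3 h - Phi X1 X2 X3 f ≤ 4.58 * (Vt h - Vt f) := by
  have := flux_mono X1_smooth X2_smooth X3_smooth (id_smooth1 (4.58 / 3)) (id_smooth2 (4.58 / 3))
    (id_smooth3 (4.58 / 3)) hf hh hle (fun p hp r hr => by
      rw [dv_id, dX_eq]
      obtain ⟨h1, h2⟩ := mem_SQ hp
      have := divF_hi (zone (hf.comb hh hr.1 hr.2) h1 h2)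
      rw [gp_pz]
      norm_num at this ⊢
      exact this)
  rw [Phi_id, Phi_id] at this
  linarith

theorem fluxZ (hf : Adm f) (hh : Adm h) (hle : ∀ p ∈ SQ, f p ≤ h p) :
    Phi Z1 Z2 Z3 h - Phi Z1 Z2 Z3 f ≤ -(12.2 * (Vt h - Vt f)) := by
  have := flux_mono Z1_smooth Z2_smooth Z3_smooth (id_smooth1 (-(12.2 / 3)))
    (id_smooth2 (-(12.2 / 3))) (id_smooth3 (-(12.2 / 3))) hf hh hle (fun p hp r hr => by
      rw [dv_id, dZ_eq]
      obtain ⟨h1, h2⟩ := mem_SQ hp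
      have hk := hf.comb hh hr.1 hr.2
      have h3 := divFt_ge (zone hk h1 h2) (by have := t_le_pz hk h1 h2; linarith)
      rw [gp_pz]
      norm_num at h3 ⊢
      linarith)
  rw [Phi_id, Phi_id] at this
  linarith

end Helper75.MEI
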