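import Pool.Agent.Helper75.MEI.VL
import Pool.Agent.Helper52.MEI.F3
import Pool.Agent.Helper41.MEI.S0
import Pool.Agent.Helper22.MEI.Main

/-!
# Project MEI: M1A and the class T theorem
-/

namespace Helper75.MEI

open Set MeasureTheory Helper22.MEI

theorem St_f0_eq : St f0 = ∫ p in SQ \ mid, 1 / NN p ^ 3 := by
  have hm : MeasurableSet midᶜ := Helper41.MEI.mid_meas.compl
  rw [show SQ \ mid = SQ ∩ midᶜ from rfl, ← setIntegral_indicator hm]
  unfold St
  refine integral_congr_ae ?_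
  have h0 : ∀ᵐ p : ℝ × ℝ ∂(volume.restrict SQ), 3 * p.2 ^ 2 ≠ 1 + p.1 ^ 2 :=
    ae_restrict_of_ae Helper52.MEI.ae_iface
  filter_upwards [h0] with p hp
  have hn := NN_ne p
  rcases lt_or_gt_of_ne hp with h | h
  · rw [Helper52.MEI.hd_f0_mid h, mul_zero, indicator_of_notMem]
    exact fun hc => hc h.le
  · have hc : p ∈ midᶜ := fun hc => absurd hc (not_le.2 h)
    rw [Helper52.MEI.hd_f0_lens h, indicator_of_mem hc]
    field_simp

/-- Row F -/
theorem st_F : ST_F := by
  have h0 : 0.127 ≤ St f0 := by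
    rw [St_f0_eq]; have := Helper41.MEI.lens_int_ge; norm_num at this ⊢; exact this
  have h1 : St f0 ≤ 0.13 := by
    rw [St_f0_eq]; have := Helper41.MEI.lens_int_le; norm_num at this ⊢; exact this
  exact ⟨Helper52.MEI.Tf_f0, Helper52.MEI.Tf_f1, Helper52.MEI.al_f0, h1,
    vL_of Helper52.MEI.Tf_f0 Helper52.MEI.Tf_f1 h0 Helper52.MEI.St_f1_le⟩

/-- **The analytic inequality M1A.** -/
theorem m1A : M1A := M1A_of Helper55.MEI.st_D Pool.Agent.Helper95.MEI.row_E st_F

/-- The same with the case of equality. -/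
theorem main_eq {f : ℝ × ℝ → ℝ} (hf : Adm f) : Vt f0 + Vt f1 ≤ Vt f + Vt (sw f)
      ∧ (Vt f + Vt (sw f) = Vt f0 + Vt f1 → Vt f = Vt f0 ∨ Vt (sw f) = Vt f0) :=
  main Helper55.MEI.st_D Pool.Agent.Helper95.MEI.row_E st_F hf

/-- **The class T theorem**: a convex body of constant width `1` containing the vertices of a
regular tetrahedron of edge `1` has at least the volume of Meissner's bodies. -/
theorem class_T {K : Set Helper80.CW.E3} (hK : IsCompact K) (hc : Convex ℝ K)
    (hw : Helper80.CW.Width1 K) {a : Fin 4 → Helper80.CW.E3} (ha : ∀ i, a i ∈ K)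
    (hd : ∀ i j, i ≠ j → dist (a i) (a j) = 1) :
    ENNReal.ofReal (Real.pi * (2 / 3 - √3 / 4 * Real.arccos (1 / 3))) ≤ volume K :=
  class_T_of_M1A m1A hK hc hw ha hd

end Helper75.MEI

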